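import Pool.Agent.Helper60.T3.GoalsI

/-!
# MP_a41896_nt, project T3, packet GENQ: the generic point of an irreducible plane curve
-/

set_option autoImplicit false

open MvPolynomial

namespace Pool.Agent.Helper46.T3.GENQ

/-- an irreducible polynomial of positive degree over a GCD domain divides every polynomial with the same root -/
lemma core {R L : Type} [CommRing R] [IsDomain R] [IsGCDMonoid R] [Field L] [Algebra R L]
    (hinj : Function.Injective (algebraMap R L)) (y : L) (q g : Polynomial R)
    (hq : Irreducible q) (hqd : q.natDegree ≠ 0) (h1 : Polynomial.aeval y q = 0)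
    (h2 : Polynomial.aeval y g = 0) : q ∣ g := by
  letI : Algebra (FractionRing R) L := (IsFractionRing.lift hinj).toAlgebra
  haveI : IsScalarTower R (FractionRing R) L :=
    IsScalarTower.of_algebraMap_eq fun r => (IsFractionRing.lift_algebraMap hinj r).symm
  have hp := hq.isPrimitive hqd
  have hi := (hp.irreducible_iff_irreducible_map_fraction_map (K := FractionRing R)).1 hq
  have h3 : Polynomial.aeval y (q.map (algebraMap R (FractionRing R))) = 0 := by
    rw [Polynomial.aeval_map_algebraMap]; exact h1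
  have h4 : Polynomial.aeval y (g.map (algebraMap R (FractionRing R))) = 0 := by
    rw [Polynomial.aeval_map_algebraMap]; exact h2
  exact hp.dvd_of_fraction_map_dvd_fraction_map (K := FractionRing R)
    ((hi.dvd_iff_aeval_eq_zero h3).1 h4)

lemma fin_C {κ : Type} [Field κ] (a : κ) :
    finSuccEquiv κ 1 (C a) = Polynomial.C (C a) := by
  rw [finSuccEquiv_apply, eval₂Hom_C]
  rfl

/-- the derivative in the variable `0` -/
lemma fin_pderiv {κ : Type} [Field κ] (F : MvPolynomial (Fin 2) κ) :
    finSuccEquiv κ 1 (pderiv 0 F) = Polynomial.derivative (finSuccEquiv κ 1 F) := by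
  induction F using MvPolynomial.induction_on with
  | C a =>
    rw [pderiv_C, map_zero]
    rw [fin_C, Polynomial.derivative_C]
  | add p q hp hq => rw [map_add, map_add, map_add, map_add, hp, hq]
  | mul_X p i hp =>
    rw [pderiv_mul, map_add, map_mul, map_mul, hp, map_mul, Polynomial.derivative_mul]
    congr 1
    congr 1
    refine Fin.cases ?_ (fun j => ?_) i
    · rw [pderiv_X_self, map_one, finSuccEquiv_X_zero, Polynomial.derivative_X]
    · rw [pderiv_X_of_ne (by exact (Fin.succ_ne_zero j)), map_zero, finSuccEquiv_X_succ,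
        Polynomial.derivative_C]

lemma main {κ L : Type} [Field κ] [CharZero κ] [Field L] [Algebra κ L] (x y : L)
    (Q : MvPolynomial (Fin 2) κ) (hQ : Irreducible Q) (hx : Transcendental κ x)
    (h0 : aeval ![y, x] Q = 0) :
    (∀ G : MvPolynomial (Fin 2) κ, aeval ![y, x] G = 0 → Q ∣ G) ∧ Q.degreeOf 0 ≠ 0 ∧
      aeval ![y, x] (pderiv 0 Q) ≠ 0 := by
  letI : Algebra (MvPolynomial (Fin 1) κ) L := (aeval (R := κ) ![x]).toRingHom.toAlgebra
  have hmap : ∀ F : MvPolynomial (Fin 1) κ, algebraMap (MvPolynomial (Fin 1) κ) L F =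
    aeval (R := κ) ![x] F := fun F => rfl
  have hinj : Function.Injective (algebraMap (MvPolynomial (Fin 1) κ) L) := by
    have h : AlgebraicIndependent κ ![x] := algebraicIndependent_unique_type_iff.2 (by simpa using hx)
    exact h
  have hev : ∀ F : MvPolynomial (Fin 2) κ,
      aeval ![y, x] F = Polynomial.aeval y (finSuccEquiv κ 1 F) := by
    intro F
    induction F using MvPolynomial.induction_on with
    | C a =>
      rw [fin_C, Polynomial.aeval_C, hmap, aeval_C, aeval_C]
    | add p q hp hq => rw [map_add, map_add, map_add, hp, hq]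
    | mul_X p i hp =>
      rw [map_mul, map_mul, map_mul, hp]
      congr 1
      refine Fin.cases ?_ (fun j => ?_) i
      · rw [finSuccEquiv_X_zero, Polynomial.aeval_X, aeval_X]; rfl
      · rw [finSuccEquiv_X_succ, Polynomial.aeval_C, hmap, aeval_X, aeval_X]
        obtain rfl : j = 0 := Subsingleton.elim _ _
        rfl
  have hirr : Irreducible (finSuccEquiv κ 1 Q) :=
    (MulEquiv.irreducible_iff (finSuccEquiv κ 1).toMulEquiv).2 hQ
  have hq0 : Polynomial.aeval y (finSuccEquiv κ 1 Q) = 0 := by rw [← hev]; exact h0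
  have hdeg : (finSuccEquiv κ 1 Q).natDegree ≠ 0 := by
    intro h
    obtain ⟨c, hc⟩ := Polynomial.natDegree_eq_zero.1 h
    rw [← hc, Polynomial.aeval_C] at hq0
    have h2 : c = 0 := (injective_iff_map_eq_zero _).1 hinj c hq0
    rw [h2, map_zero] at hc
    exact hirr.ne_zero hc.symm
  have hdvd : ∀ G : MvPolynomial (Fin 2) κ, aeval ![y, x] G = 0 → Q ∣ G := by
    intro G hG
    rw [hev] at hG
    have h := core hinj y _ _ hirr hdeg hq0 hG
    exact (map_dvd_iff (finSuccEquiv κ 1)).1 h
  refine ⟨hdvd, ?_, ?_⟩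
  · rw [← natDegree_finSuccEquiv]
    exact hdeg
  · intro h
    have h1 := hdvd _ h
    have h2 := (map_dvd_iff (finSuccEquiv κ 1)).2 h1
    rw [fin_pderiv] at h2
    have h3 := Polynomial.eq_zero_of_dvd_of_natDegree_lt h2
      (Polynomial.natDegree_derivative_lt hdeg)
    exact hdeg (Polynomial.derivative_eq_zero.1 h3)

/-- **GENQ** -/
theorem t : Pool.Agent.Helper60.T3.S_GENQ := by
  intro κ L _ _ _ _ x y Q hQ
  refine ⟨main x y Q hQ, fun hx h0 => ?_⟩
  have hinj : Function.Injective (Equiv.swap (0 : Fin 2) 1) := (Equiv.swap _ _).injective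
  have hev : ∀ F : MvPolynomial (Fin 2) κ,
      aeval ![y, x] (rename (Equiv.swap (0 : Fin 2) 1) F) = aeval ![x, y] F := by
    intro F
    rw [aeval_rename]
    congr 1
    congr 1
    funext i
    fin_cases i <;> simp
  have hirr : Irreducible (rename (Equiv.swap (0 : Fin 2) 1) Q) :=
    (MulEquiv.irreducible_iff (renameEquiv κ (Equiv.swap (0 : Fin 2) 1)).toMulEquiv).2 hQ
  obtain ⟨h1, h2, h3⟩ := main x y _ hirr hx (by rw [hev]; exact h0)
  refine ⟨fun G hG => ?_, ?_, ?_⟩
  · have h4 := h1 (rename (Equiv.swap (0 : Fin 2) 1) G) (by rw [hev]; exact hG)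
    exact (map_dvd_iff (renameEquiv κ (Equiv.swap (0 : Fin 2) 1))).1 h4
  · have h4 := degreeOf_rename_of_injective (p := Q) hinj 1
    rw [Equiv.swap_apply_right] at h4
    rw [← h4]
    exact h2
  · have h4 := pderiv_rename hinj (1 : Fin 2) Q
    rw [Equiv.swap_apply_right] at h4
    rw [h4, hev] at h3
    exact h3

end Pool.Agent.Helper46.T3.GENQ
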